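import Pool.Agent.Helper20.MB.Fin.P7e

/-!
# Naturality of the curvature
-/

open Filter Metric Module Set
open scoped Topology ContDiff RealInnerProductSpace Manifold

set_option maxSynthPendingDepth 3

namespace Pool.Agent.Helper20.MB.Spec
open Pool.Agent.Helper20.PC Pool.Agent.Helper20.HP Pool.Agent.Helper20.M8 Pool.Agent.Helper20.MB

section
variable {V Y : Type*} [NormedAddCommGroup V] [NormedSpace ℝ V] [FiniteDimensional ℝ V]
  [NormedAddCommGroup Y] [NormedSpace ℝ Y] [FiniteDimensional ℝ Y] {D : BD V Y} {x : V} {y : Y}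

theorem til_num (H : D.Good x) {η : ℝ} (hy : y ≠ 0)
    (hpos : ∀ a, a ≠ 0 → 0 < fibL D.k D.S η (x, y) a a) (u v : V × Y) :
    num ((D.til x).G η) (x, y) u v
      = num (D.G η) (x, y) (u.1, u.2 - D.A x u.1 y) (v.1, v.2 - D.A x v.1 y) :=
  Pool.Agent.Helper20.MB.H17.til_num H hy hpos u v

end

end Pool.Agent.Helper20.MB.Spec
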