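import Pool.Agent.Helper20.MB.Fin.P8a

/-!
# Curvature of the connection in the new gauge
-/

open Filter Metric Module Set
open scoped Topology ContDiff RealInnerProductSpace Manifold

set_option maxSynthPendingDepth 3

namespace Pool.Agent.Helper20.MB.Spec
open Pool.Agent.Helper20.PC Pool.Agent.Helper20.HP Pool.Agent.Helper20.M8 Pool.Agent.Helper20.MB

section
variable {V Y : Type*} [NormedAddCommGroup V] [NormedSpace ℝ V] [FiniteDimensional ℝ V]
  [NormedAddCommGroup Y] [NormedSpace ℝ Y] [FiniteDimensional ℝ Y] {D : BD V Y} {x : V} {y : Y}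

theorem til_OmV (H : D.Good x) : ∀ᶠ x' in 𝓝 x, ∀ (ζ ζ' : V) (p : Y),
    OmV (D.til x).A x' ζ ζ' p = (gau D.A x x').inverse (OmV D.A x' ζ ζ' (gau D.A x x' p)) :=
  Pool.Agent.Helper20.MB.H85.til_OmV H

end

end Pool.Agent.Helper20.MB.Spec
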