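import Pool.Agent.Helper20.MB.DefsG
import Pool.Agent.Helper78.MB.P8c

/-!
# The Lie derivatives in normal gauge
-/

open Filter Metric Module Set
open scoped Topology ContDiff RealInnerProductSpace Manifold

set_option maxSynthPendingDepth 3

namespace Pool.Agent.Helper20.MB.Spec
open Pool.Agent.Helper20.PC Pool.Agent.Helper20.HP Pool.Agent.Helper20.M8 Pool.Agent.Helper20.MB

section
variable {V Y : Type*} [NormedAddCommGroup V] [NormedSpace ℝ V] [FiniteDimensional ℝ V]
  [NormedAddCommGroup Y] [NormedSpace ℝ Y] [FiniteDimensional ℝ Y] {D : BD V Y} {x : V} {y : Y}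

theorem lie_NG (H : D.Good x) (N : NG D.h D.k D.S D.A x) (X U : V) (a b c d : Y) :
    lie D.Xs D.OmS (x, X, U, a, b, c, d) = D.k x a (DOmV D.h D.A x X X U b) ∧
    lie D.Xs D.SS (x, X, U, a, b, c, d) = dS4 D.S x X a b c d ∧
    lie D.Xs (lie D.Xs D.SS) (x, X, U, a, b, c, d) = hS4 D.h D.S x X X a b c d :=
  Pool.Agent.Helper78.MB.lie_NG H N X U a b c d

end

end Pool.Agent.Helper20.MB.Spec
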