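import Pool.Agent.Helper33.MB.P9a
import Pool.Agent.Helper20.MB.Fin.A8c

/-!
# Bounds for arbitrary vectors
-/

open Filter Metric Module Set
open scoped Topology ContDiff RealInnerProductSpace Manifold

set_option maxSynthPendingDepth 3

namespace Pool.Agent.Helper20.MB.Spec
open Pool.Agent.Helper20.PC Pool.Agent.Helper20.HP Pool.Agent.Helper20.M8 Pool.Agent.Helper20.MB

section
variable {V Y : Type*} [NormedAddCommGroup V] [NormedSpace ℝ V] [FiniteDimensional ℝ V]
  [NormedAddCommGroup Y] [NormedSpace ℝ Y] [FiniteDimensional ℝ Y] {D : BD V Y} {x : V} {y : Y}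

theorem bdN_of (H : D.Good x) (N : NG D.h D.k D.S D.A x) {b : ℝ} (h1 : 1 ≤ b) (hb : D.Bdd x b) :
    BdN D.h D.k D.S D.A x b :=
  Pool.Agent.Helper33.MB.bdN_of_lie H N h1 hb (Spec.lie_NG H N)

end

end Pool.Agent.Helper20.MB.Spec
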