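import Pool.Agent.Helper60.MB.P4b

/-!
# The horizontal terms
-/

open Filter Metric Module Set
open scoped Topology ContDiff RealInnerProductSpace Manifold

set_option maxSynthPendingDepth 3

namespace Pool.Agent.Helper20.MB.Spec
open Pool.Agent.Helper20.PC Pool.Agent.Helper20.HP Pool.Agent.Helper20.M8 Pool.Agent.Helper20.MB

section
variable {V Y : Type*} [NormedAddCommGroup V] [NormedSpace ℝ V] [FiniteDimensional ℝ V]
  [NormedAddCommGroup Y] [NormedSpace ℝ Y] [FiniteDimensional ℝ Y]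
  {h : V → V →L[ℝ] V →L[ℝ] ℝ} {m : V → Y →L[ℝ] Y →L[ℝ] ℝ}
  {S : V → Y →L[ℝ] Y →L[ℝ] Y →L[ℝ] Y →L[ℝ] ℝ} {A : V → V →L[ℝ] Y →L[ℝ] Y} {x : V} {y : Y}

theorem hor_lower (H : NG h m S A x) {b δ : ℝ} (hb : BdN h m S A x b) {X Z : V} {U T : Y}
    {ca sa cb sb : ℝ} (F : Fr h m S δ b x y X Z U T ca sa cb sb) {th thu thv t1 t2 : V}
    (h1 : IsHF h m S A δ x y (ca • X) ((sa / δ) • U) (cb • Z) ((sb / δ) • T) th)
    (h2 : IsHF h m S A δ x y (ca • X) ((sa / δ) • U) (ca • X) ((sa / δ) • U) thu)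
    (h3 : IsHF h m S A δ x y (cb • Z) ((sb / δ) • T) (cb • Z) ((sb / δ) • T) thv)
    (h4 : ∀ ξ, h x t1 ξ = m x T (OmV A x X ξ y)) (h5 : ∀ ξ, h x t2 ξ = m x U (OmV A x Z ξ y)) :
    δ ^ 2 * ((ca * sb) ^ 2 * ((1/4) * h x t1 t1) + (sa * cb) ^ 2 * ((1/4) * h x t2 t2))
      - 100 * b ^ 3 * Er δ (ca * cb) (sa * sb) (ca * sb) (sa * cb)
      ≤ h x th th - h x thu thv :=
  Pool.Agent.Helper60.MB.hor_lower H hb F h1 h2 h3 h4 h5

end

end Pool.Agent.Helper20.MB.Spec
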