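import Pool.Agent.Helper20.MB.DefsN
import Pool.Agent.Helper2.MB.P5

/-!
# Principal basis of a plane
-/

open Filter Metric Module Set
open scoped Topology ContDiff RealInnerProductSpace Manifold

set_option maxSynthPendingDepth 3

namespace Pool.Agent.Helper20.MB.Spec
open Pool.Agent.Helper20.PC Pool.Agent.Helper20.HP Pool.Agent.Helper20.M8 Pool.Agent.Helper20.MB

section
variable {V Y : Type*} [NormedAddCommGroup V] [NormedSpace ℝ V] [FiniteDimensional ℝ V]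
  [NormedAddCommGroup Y] [NormedSpace ℝ Y] [FiniteDimensional ℝ Y]
  {h : V → V →L[ℝ] V →L[ℝ] ℝ} {m : V → Y →L[ℝ] Y →L[ℝ] ℝ}
  {S : V → Y →L[ℝ] Y →L[ℝ] Y →L[ℝ] Y →L[ℝ] ℝ} {A : V → V →L[ℝ] Y →L[ℝ] Y} {x : V} {y : Y}

theorem principalM (hV : 2 ≤ finrank ℝ V) (hY : 3 ≤ finrank ℝ Y) {Hf : V →L[ℝ] V →L[ℝ] ℝ}
    (Hs : ∀ u v, Hf u v = Hf v u) (Hp : ∀ u, u ≠ 0 → 0 < Hf u u) {k M : Y →L[ℝ] Y →L[ℝ] ℝ}
    (hy : k y y = 1) (Ms : ∀ p q, M p q = M q p) (Mp : ∀ p, k y p = 0 → p ≠ 0 → 0 < M p p)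
    {δ : ℝ} (hδ : 0 < δ) {u v : V × Y} (hu : k y u.2 = 0) (hv : k y v.2 = 0)
    (huv : LinearIndependent ℝ ![u, v]) :
    ∃ (X Z : V) (U T : Y) (ca sa cb sb a b c d : ℝ), Hf X X = 1 ∧ Hf Z Z = 1 ∧ Hf X Z = 0 ∧
      k y U = 0 ∧ k y T = 0 ∧ M U U = 1 ∧ M T T = 1 ∧ M U T = 0 ∧
      ca ^ 2 + sa ^ 2 = 1 ∧ cb ^ 2 + sb ^ 2 = 1 ∧ a * d - b * c ≠ 0 ∧
      u = a • ((ca • X, (sa / δ) • U) : V × Y) + b • ((cb • Z, (sb / δ) • T) : V × Y) ∧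
      v = c • ((ca • X, (sa / δ) • U) : V × Y) + d • ((cb • Z, (sb / δ) • T) : V × Y) :=
  Pool.Agent.Helper2.MB.principalM hV hY Hs Hp hy Ms Mp hδ hu hv huv

end

end Pool.Agent.Helper20.MB.Spec
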