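import Pool.Agent.Helper60.MB.P4a

/-!
# The explicit part
-/

open Filter Metric Module Set
open scoped Topology ContDiff RealInnerProductSpace Manifold

set_option maxSynthPendingDepth 3

namespace Pool.Agent.Helper20.MB.Spec
open Pool.Agent.Helper20.PC Pool.Agent.Helper20.HP Pool.Agent.Helper20.M8 Pool.Agent.Helper20.MB

section
variable {V Y : Type*} [NormedAddCommGroup V] [NormedSpace ℝ V] [FiniteDimensional ℝ V]
  [NormedAddCommGroup Y] [NormedSpace ℝ Y] [FiniteDimensional ℝ Y]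
  {h : V → V →L[ℝ] V →L[ℝ] ℝ} {m : V → Y →L[ℝ] Y →L[ℝ] ℝ}
  {S : V → Y →L[ℝ] Y →L[ℝ] Y →L[ℝ] Y →L[ℝ] ℝ} {A : V → V →L[ℝ] Y →L[ℝ] Y} {x : V} {y : Y}

theorem FN_lower (H : NG h m S A x) {b δ : ℝ} (hb : BdN h m S A x b) {X Z : V} {U T : Y}
    {ca sa cb sb : ℝ} (F : Fr h m S δ b x y X Z U T ca sa cb sb) :
    num h x X Z * (ca * cb) ^ 2 + (1/4) * (δ ^ 2)⁻¹ * (sa * sb) ^ 2
      + δ * (ca * cb) * ((ca * sb) * (- m x (DOmV h A x X X Z y) T)
        + (sa * cb) * (- m x (DOmV h A x Z Z X y) U))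
      + δ ^ 2 * ((ca * sb) ^ 2 * ((1/2) * hS4 h S x X X y T y T)
        + (sa * cb) ^ 2 * ((1/2) * hS4 h S x Z Z y U y U))
      - 100 * b ^ 3 * Er δ (ca * cb) (sa * sb) (ca * sb) (sa * cb)
      ≤ FN h m S A δ x y (ca • X) ((sa / δ) • U) (cb • Z) ((sb / δ) • T) :=
  Pool.Agent.Helper60.MB.FN_lower H hb F

end

end Pool.Agent.Helper20.MB.Spec
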