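import Pool.Agent.Helper30.MB.P7a

/-!
# Properties of the gauge transformation
-/

open Filter Metric Module Set
open scoped Topology ContDiff RealInnerProductSpace Manifold

set_option maxSynthPendingDepth 3

namespace Pool.Agent.Helper20.MB.Spec
open Pool.Agent.Helper20.PC Pool.Agent.Helper20.HP Pool.Agent.Helper20.M8 Pool.Agent.Helper20.MB

section
variable {V Y : Type*} [NormedAddCommGroup V] [NormedSpace ℝ V] [FiniteDimensional ℝ V]
  [NormedAddCommGroup Y] [NormedSpace ℝ Y] [FiniteDimensional ℝ Y] {D : BD V Y} {x : V} {y : Y}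

theorem gau_contDiff (A : V → V →L[ℝ] Y →L[ℝ] Y) (x : V) : ContDiff ℝ ∞ (gau A x) :=
  Pool.Agent.Helper30.MB.gau_contDiff A x

theorem gau_self (A : V → V →L[ℝ] Y →L[ℝ] Y) (x : V) : gau A x x = ContinuousLinearMap.id ℝ Y :=
  Pool.Agent.Helper30.MB.gau_self A x

theorem gau_fderiv (A : V → V →L[ℝ] Y →L[ℝ] Y) (x ζ : V) : fderiv ℝ (gau A x) x ζ = - A x ζ :=
  Pool.Agent.Helper30.MB.gau_fderiv A x ζ

theorem gau_fderiv2 (A : V → V →L[ℝ] Y →L[ℝ] Y) (x ξ ζ : V) :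
    fderiv ℝ (fderiv ℝ (gau A x)) x ξ ζ = (1/2 : ℝ) • ((A x ξ) ∘L (A x ζ) + (A x ζ) ∘L (A x ξ)
      - fderiv ℝ A x ξ ζ - fderiv ℝ A x ζ ξ) :=
  Pool.Agent.Helper30.MB.gau_fderiv2 A x ξ ζ

theorem gau_inv (A : V → V →L[ℝ] Y →L[ℝ] Y) (x : V) :
    (∀ᶠ x' in 𝓝 x, (gau A x x').IsInvertible) ∧ ContDiffAt ℝ ∞ (fun x' => (gau A x x').inverse) x :=
  Pool.Agent.Helper30.MB.gau_inv A x

end

end Pool.Agent.Helper20.MB.Spec
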