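import Pool.Agent.Helper20.MB.Fin.A7a
import Pool.Agent.Helper20.MB.DefsG

/-!
# Project MB, piece 7b: the data in normal gauge are admissible
-/

open Filter Metric Module Set
open scoped Topology ContDiff RealInnerProductSpace Manifold

set_option maxSynthPendingDepth 3

namespace Pool.Agent.Helper20.MB.H59
open Pool.Agent.Helper20.PC Pool.Agent.Helper20.HP Pool.Agent.Helper20.M8 Pool.Agent.Helper20.MB

private lemma cda_of_apply {P F₁ F₂ : Type*} [NormedAddCommGroup P] [NormedSpace ℝ P]
    [NormedAddCommGroup F₁] [NormedSpace ℝ F₁] [NormedAddCommGroup F₂] [NormedSpace ℝ F₂]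
    [FiniteDimensional ℝ F₁] {f : P → F₁ →L[ℝ] F₂} {x : P} {r : WithTop ℕ∞}
    (h : ∀ u, ContDiffAt ℝ r (fun x => f x u) x) : ContDiffAt ℝ r f x := by
  let d := finrank ℝ F₁
  have hd : d = finrank ℝ (Fin d → ℝ) := (finrank_fin_fun ℝ).symm
  let e₁ := ContinuousLinearEquiv.ofFinrankEq hd
  let e₂ := (e₁.arrowCongr (1 : F₂ ≃L[ℝ] F₂)).trans (ContinuousLinearEquiv.piRing (Fin d))
  rw [← Function.id_comp f, ← e₂.symm_comp_self]
  exact e₂.symm.contDiff.contDiffAt.comp x (contDiffAt_pi.mpr fun i => h _)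

section
variable {V Y : Type*} [NormedAddCommGroup V] [NormedSpace ℝ V] [FiniteDimensional ℝ V]
  [NormedAddCommGroup Y] [NormedSpace ℝ Y] [FiniteDimensional ℝ Y] {D : BD V Y} {x : V} {y : Y}

private lemma til_hA (H : D.Good x) : ContDiffAt ℝ ∞ (D.til x).A x := by
  have hg : ContDiffAt ℝ ∞ (gau D.A x) x := (Spec.gau_contDiff D.A x).contDiffAt
  have hgi := (Spec.gau_inv D.A x).2
  have hdg : ContDiffAt ℝ ∞ (fderiv ℝ (gau D.A x)) x :=
    ((Spec.gau_contDiff D.A x).fderiv_right (m := ∞) (by simp)).contDiffAt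
  refine cda_of_apply fun u => cda_of_apply fun p => ?_
  simp only [BD.til_A]
  exact hgi.clm_apply (((H.hA.clm_apply contDiffAt_const).clm_apply
    (hg.clm_apply contDiffAt_const)).add ((hdg.clm_apply contDiffAt_const).clm_apply
    contDiffAt_const))

private lemma til_hk (H : D.Good x) : ContDiffAt ℝ ∞ (D.til x).k x := by
  have hg : ContDiffAt ℝ ∞ (gau D.A x) x := (Spec.gau_contDiff D.A x).contDiffAt
  refine cda_of_apply fun p => cda_of_apply fun q => ?_
  simp only [BD.til_k]
  exact (H.hk.clm_apply (hg.clm_apply contDiffAt_const)).clm_apply (hg.clm_apply contDiffAt_const)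

private lemma til_hS (H : D.Good x) : ContDiffAt ℝ ∞ (D.til x).S x := by
  have hg : ContDiffAt ℝ ∞ (gau D.A x) x := (Spec.gau_contDiff D.A x).contDiffAt
  refine cda_of_apply fun a => cda_of_apply fun b => cda_of_apply fun c =>
    cda_of_apply fun d => ?_
  simp only [BD.til_S]
  exact (((H.hS.clm_apply (hg.clm_apply contDiffAt_const)).clm_apply
    (hg.clm_apply contDiffAt_const)).clm_apply (hg.clm_apply contDiffAt_const)).clm_apply
    (hg.clm_apply contDiffAt_const)

private lemma til_kpar (H : D.Good x) : ∀ᶠ x' in 𝓝 x, ∀ (u : V) (p q : Y),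
    fderiv ℝ (D.til x).k x' u p q
      = (D.til x).k x' ((D.til x).A x' u p) q + (D.til x).k x' p ((D.til x).A x' u q) := by
  have hk1 : ∀ᶠ x' in 𝓝 x, ContDiffAt ℝ 1 D.k x' :=
    (H.hk.of_le (by exact_mod_cast le_top)).eventually (by simp)
  have hk2 : ∀ᶠ x' in 𝓝 x, ContDiffAt ℝ 1 (D.til x).k x' :=
    ((til_hk H).of_le (by exact_mod_cast le_top)).eventually (by simp)
  filter_upwards [hk1, hk2, H.kpar, (Spec.gau_inv D.A x).1] with x' h1 h2 h3 h4 u p q
  have hK := (h1.differentiableAt (by simp)).hasFDerivAt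
  have hT := (h2.differentiableAt (by simp)).hasFDerivAt
  have hg : HasFDerivAt (gau D.A x) (fderiv ℝ (gau D.A x) x') x' :=
    (((Spec.gau_contDiff D.A x).differentiable (by simp)) x').hasFDerivAt
  have e1 : fderiv ℝ (fun y => (D.til x).k y p q) x' u = fderiv ℝ (D.til x).k x' u p q := by
    rw [((hT.clm_apply (hasFDerivAt_const p x')).clm_apply (hasFDerivAt_const q x')).fderiv]
    simp
  have e2 : (fun y => (D.til x).k y p q) = fun y => D.k y (gau D.A x y p) (gau D.A x y q) :=
    funext fun y => BD.til_k D x y p q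
  have e3 := ((hK.clm_apply (hg.clm_apply (hasFDerivAt_const p x'))).clm_apply
    (hg.clm_apply (hasFDerivAt_const q x'))).fderiv
  rw [← e1, e2, e3, BD.til_k, BD.til_k, BD.til_A, BD.til_A, h4.self_apply_inverse,
    h4.self_apply_inverse]
  simp [h3]
  ring

/-- MB-7b: the new data are admissible -/
theorem til_good (H : D.Good x) : (D.til x).Good x where
  hh := H.hh
  hA := til_hA H
  hk := til_hk H
  hS := til_hS H
  hsymm := H.hsymm
  hpos := H.hpos
  ksymm := by
    filter_upwards [H.ksymm] with x' h p q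
    rw [BD.til_k, BD.til_k]
    exact h _ _
  kpos := by
    filter_upwards [H.kpos, (Spec.gau_inv D.A x).1] with x' h h4 p hp
    rw [BD.til_k]
    exact h _ fun h0 => hp (h4.injective (by rw [h0, map_zero]))
  kpar := til_kpar H
  S1 := by
    filter_upwards [H.S1] with x' h a b c d
    rw [BD.til_S, BD.til_S]
    exact h _ _ _ _
  S2 := by
    filter_upwards [H.S2] with x' h a b c d
    rw [BD.til_S, BD.til_S]
    exact h _ _ _ _

end

end Pool.Agent.Helper20.MB.H59
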