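import Pool.Agent.Helper20.MB.Fin.A7b

/-!
# Project MB, piece 7c: the gauge-transformed data are in normal gauge
-/

open Filter Metric Module Set
open scoped Topology ContDiff RealInnerProductSpace Manifold

set_option maxSynthPendingDepth 3

namespace Pool.Agent.Helper20.MB.H87
open Pool.Agent.Helper20.PC Pool.Agent.Helper20.HP Pool.Agent.Helper20.M8 Pool.Agent.Helper20.MB

section
variable {V Y : Type*} [NormedAddCommGroup V] [NormedSpace ℝ V] [FiniteDimensional ℝ V]
  [NormedAddCommGroup Y] [NormedSpace ℝ Y] [FiniteDimensional ℝ Y] {D : BD V Y} {x : V} {y : Y}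

theorem two_le_inf : (2 : WithTop ℕ∞) ≤ ∞ := WithTop.coe_le_coe.2 (le_top : (2 : ℕ∞) ≤ ⊤)

omit [FiniteDimensional ℝ V] [FiniteDimensional ℝ Y] in
/-- derivative of `A x' u p`. -/
theorem hasFDerivAt_A2 {A : V → V →L[ℝ] Y →L[ℝ] Y} (hA : DifferentiableAt ℝ A x) (u : V) (p : Y) :
    ∃ L : V →L[ℝ] Y, HasFDerivAt (fun x' => A x' u p) L x ∧ ∀ ξ, L ξ = fderiv ℝ A x ξ u p := by
  have h1 := (hA.hasFDerivAt.clm_apply (hasFDerivAt_const u x)).clm_apply (hasFDerivAt_const p x)
  exact ⟨_, h1, fun ξ => by simp⟩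

omit [FiniteDimensional ℝ V] [FiniteDimensional ℝ Y] in
/-- admissible data with `A x = 0` and antisymmetric first derivative are in normal gauge. -/
theorem NG_of_good {D : BD V Y} (H : D.Good x) (h0 : D.A x = 0)
    (h1 : ∀ ζ, fderiv ℝ D.A x ζ ζ = 0) : NG D.h D.k D.S D.A x := by
  have hAd : DifferentiableAt ℝ D.A x := H.hA.differentiableAt (by simp)
  have hkd : DifferentiableAt ℝ D.k x := H.hk.differentiableAt (by simp)
  -- the second derivative of `k`
  have hk2 : ∀ (ξ u : V) (p q : Y), fderiv ℝ (fderiv ℝ D.k) x ξ u p q =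
      D.k x (fderiv ℝ D.A x ξ u p) q + D.k x p (fderiv ℝ D.A x ξ u q) := by
    intro ξ u p q
    have hkd2 : DifferentiableAt ℝ (fderiv ℝ D.k) x :=
      (H.hk.fderiv_right (m := 1) (by exact_mod_cast two_le_inf)).differentiableAt (by simp)
    have hl := ((hkd2.hasFDerivAt.clm_apply (hasFDerivAt_const u x)).clm_apply
      (hasFDerivAt_const p x)).clm_apply (hasFDerivAt_const q x)
    have hl' : fderiv ℝ (fun x' => fderiv ℝ D.k x' u p q) x ξ =
        fderiv ℝ (fderiv ℝ D.k) x ξ u p q := by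
      rw [hl.fderiv]
      simp
    obtain ⟨Lp, hLp, hLp'⟩ := hasFDerivAt_A2 (x := x) hAd u p
    obtain ⟨Lq, hLq, hLq'⟩ := hasFDerivAt_A2 (x := x) hAd u q
    have hr := ((hkd.hasFDerivAt.clm_apply hLp).clm_apply (hasFDerivAt_const q x)).add
      ((hkd.hasFDerivAt.clm_apply (hasFDerivAt_const p x)).clm_apply hLq)
    have hr' : fderiv ℝ (fun x' => D.k x' (D.A x' u p) q + D.k x' p (D.A x' u q)) x ξ =
        D.k x (fderiv ℝ D.A x ξ u p) q + D.k x p (fderiv ℝ D.A x ξ u q) := by
      have := hr.fderiv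
      rw [← hLp', ← hLq']
      have e : (fun x' => D.k x' (D.A x' u p) q + D.k x' p (D.A x' u q)) =
          ((fun x' => D.k x' (D.A x' u p) q) + fun x' => D.k x' p (D.A x' u q)) := rfl
      rw [e, this]
      simp [h0]
    rw [← hl', ← hr']
    have hee : (fun x' => fderiv ℝ D.k x' u p q) =ᶠ[𝓝 x]
        (fun x' => D.k x' (D.A x' u p) q + D.k x' p (D.A x' u q)) :=
      H.kpar.mono fun x' hx' => hx' u p q
    rw [hee.fderiv_eq]
  -- antisymmetry
  have hanti : ∀ ξ u : V, fderiv ℝ D.A x ξ u = - fderiv ℝ D.A x u ξ := by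
    intro ξ u
    have := h1 (ξ + u)
    simp only [map_add, _root_.add_apply, h1, zero_add, add_zero] at this
    exact eq_neg_of_add_eq_zero_left (by rw [add_comm]; exact this)
  have hsym : ∀ ξ u : V, fderiv ℝ (fderiv ℝ D.k) x ξ u = fderiv ℝ (fderiv ℝ D.k) x u ξ := by
    intro ξ u
    have : IsSymmSndFDerivAt ℝ D.k x := H.hk.isSymmSndFDerivAt (by simpa using two_le_inf)
    exact this.eq ξ u
  have hz : ∀ (ξ u : V) (p q : Y), fderiv ℝ (fderiv ℝ D.k) x ξ u p q = 0 := by
    intro ξ u p q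
    have e1 := hk2 ξ u p q
    have e2 := hk2 u ξ p q
    rw [hanti u ξ] at e2
    rw [hsym u ξ] at e2
    simp only [_root_.neg_apply, map_neg] at e2
    linarith
  refine
    { hh := ⟨H.hh.of_le two_le_inf, H.hsymm, H.hpos⟩
      hm := ⟨H.hk.of_le two_le_inf, H.ksymm, H.kpos⟩
      m1 := ?_
      m2 := ?_
      hS := H.hS.of_le two_le_inf
      S1 := H.S1
      S2 := H.S2
      hA := H.hA.of_le two_le_inf
      A0 := h0
      A1 := h1
      skew := ?_ }
  · ext u p q
    have := H.kpar.self_of_nhds u p q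
    rw [this, h0]
    simp
  · ext ξ u p q
    simpa using hz ξ u p q
  · intro ζ ζ' a b
    have e1 := hk2 ζ ζ' a b
    rw [hz] at e1
    linarith

/-- MB-7c : normal gauge. -/
theorem til_NG (H : D.Good x) : NG (D.til x).h (D.til x).k (D.til x).S (D.til x).A x := by
  have HG : (D.til x).Good x := Spec.til_good H
  have hg0 : gau D.A x x = ContinuousLinearMap.id ℝ Y := Spec.gau_self D.A x
  have hinv0 : (ContinuousLinearMap.id ℝ Y).inverse = ContinuousLinearMap.id ℝ Y :=
    ContinuousLinearMap.inverse_id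
  have hB0 : ∀ (u : V) (p : Y), D.A x u (gau D.A x x p) + fderiv ℝ (gau D.A x) x u p = 0 := by
    intro u p
    rw [hg0, Spec.gau_fderiv]
    simp
  have hAd : DifferentiableAt ℝ D.A x := H.hA.differentiableAt (by simp)
  have hgd : ContDiff ℝ ∞ (gau D.A x) := Spec.gau_contDiff D.A x
  have hgd1 : DifferentiableAt ℝ (gau D.A x) x := hgd.contDiffAt.differentiableAt (by simp)
  have hgd2 : DifferentiableAt ℝ (fderiv ℝ (gau D.A x)) x :=
    (hgd.contDiffAt.fderiv_right (m := 1) (by exact_mod_cast two_le_inf)).differentiableAt (by simp)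
  have hid : DifferentiableAt ℝ (fun x' => (gau D.A x x').inverse) x :=
    (Spec.gau_inv D.A x).2.differentiableAt (by simp)
  refine NG_of_good HG ?_ ?_
  · ext u p
    rw [BD.til_A, hB0]
    simp
  · intro ζ
    ext p
    obtain ⟨L, hL, hL'⟩ := hasFDerivAt_A2 (x := x) (HG.hA.differentiableAt (by simp)) ζ p
    have e1 : (fun x' => (D.til x).A x' ζ p) = fun x' =>
        (gau D.A x x').inverse (D.A x' ζ (gau D.A x x' p) + fderiv ℝ (gau D.A x) x' ζ p) := by
      funext x'
      exact BD.til_A D x x' ζ p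
    rw [e1] at hL
    have hg : HasFDerivAt (fun x' => gau D.A x x' p) _ x :=
      hgd1.hasFDerivAt.clm_apply (hasFDerivAt_const p x)
    have hA : HasFDerivAt (fun x' => D.A x' ζ (gau D.A x x' p)) _ x :=
      (hAd.hasFDerivAt.clm_apply (hasFDerivAt_const ζ x)).clm_apply hg
    have hg2 : HasFDerivAt (fun x' => fderiv ℝ (gau D.A x) x' ζ p) _ x :=
      (hgd2.hasFDerivAt.clm_apply (hasFDerivAt_const ζ x)).clm_apply (hasFDerivAt_const p x)
    have hT := hid.hasFDerivAt.clm_apply (hA.add hg2)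
    have e2 := hL.unique hT
    rw [← hL', e2]
    simp only [Pi.add_apply, hg0, hinv0, _root_.add_apply,
      ContinuousLinearMap.comp_apply, ContinuousLinearMap.flip_apply, map_zero,
      _root_.zero_apply, ContinuousLinearMap.id_apply, zero_add,
      Spec.gau_fderiv, Spec.gau_fderiv2]
    simp only [_root_.neg_apply, _root_.smul_apply, _root_.sub_apply,
      _root_.add_apply, ContinuousLinearMap.comp_apply, add_neg_cancel, map_zero, map_neg]
    module

end

end Pool.Agent.Helper20.MB.H87
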