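import Pool.Agent.Helper20.MB.Fin.A7df
import Pool.Agent.Helper20.MB.Fin.A7b
import Pool.Agent.Helper20.HPF.R1

/-!
# MB-7e : naturality of the curvature under the change of gauge
-/

open Filter Metric Module Set
open scoped Topology ContDiff RealInnerProductSpace Manifold

set_option maxSynthPendingDepth 3

namespace Pool.Agent.Helper20.MB.H17
open Pool.Agent.Helper20.PC Pool.Agent.Helper20.HP Pool.Agent.Helper20.M8 Pool.Agent.Helper20.MB
open Pool.Agent.Helper20.MB.Spec

section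
variable {V Y : Type*} [NormedAddCommGroup V] [NormedSpace ℝ V] [FiniteDimensional ℝ V]
  [NormedAddCommGroup Y] [NormedSpace ℝ Y] [FiniteDimensional ℝ Y] {D : BD V Y} {x : V} {y : Y}

omit [FiniteDimensional ℝ V] [FiniteDimensional ℝ Y] in
lemma gmap_hasFDerivAt (hg : ContDiff ℝ ∞ (gau D.A x)) (y : Y) :
    HasFDerivAt (gmap D.A x) ((ContinuousLinearMap.fst ℝ V Y).prod
      ((gau D.A x x).comp (ContinuousLinearMap.snd ℝ V Y)
        + ((fderiv ℝ (gau D.A x) x).comp (ContinuousLinearMap.fst ℝ V Y)).flip y)) (x, y) := by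
  have h1 : HasFDerivAt (gau D.A x) (fderiv ℝ (gau D.A x) x) ((ContinuousLinearMap.fst ℝ V Y) (x, y)) :=
    (hg.differentiable (by simp) x).hasFDerivAt
  have h2 : HasFDerivAt (fun z : V × Y => gau D.A x z.1)
      ((fderiv ℝ (gau D.A x) x).comp (ContinuousLinearMap.fst ℝ V Y)) (x, y) :=
    h1.comp (x, y) (ContinuousLinearMap.fst ℝ V Y).hasFDerivAt
  have h3 : HasFDerivAt (fun z : V × Y => z.2) (ContinuousLinearMap.snd ℝ V Y) (x, y) :=
    (ContinuousLinearMap.snd ℝ V Y).hasFDerivAt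
  have h4 := h2.clm_apply h3
  exact (ContinuousLinearMap.fst ℝ V Y).hasFDerivAt.prodMk h4

lemma gmap_fderiv (y : Y) (u : V × Y) :
    fderiv ℝ (gmap D.A x) (x, y) u = (u.1, u.2 - D.A x u.1 y) := by
  rw [(gmap_hasFDerivAt (gau_contDiff D.A x) y).fderiv]
  simp [gau_self, gau_fderiv, sub_eq_add_neg]

lemma gmap_self (y : Y) : gmap D.A x (x, y) = (x, y) := by
  simp [gmap, gau_self]

lemma til_fibL (η : ℝ) (y a : Y) :
    fibL (D.til x).k (D.til x).S η (x, y) a a = fibL D.k D.S η (x, y) a a := by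
  simp [fibL, BD.til_k, BD.til_S, gau_self]

-- MB-7e : naturality of the curvature (uses MB-7a, MB-7b, MB-7d, MB-7f and HP.num_pullback)
theorem til_num (H : D.Good x) {η : ℝ} (hy : y ≠ 0)
    (hpos : ∀ a, a ≠ 0 → 0 < fibL D.k D.S η (x, y) a a) (u v : V × Y) :
    num ((D.til x).G η) (x, y) u v
      = num (D.G η) (x, y) (u.1, u.2 - D.A x u.1 y) (v.1, v.2 - D.A x v.1 y) := by
  have hg : ContDiff ℝ ∞ (gau D.A x) := gau_contDiff D.A x
  have hφ : ContDiffAt ℝ 3 (gmap D.A x) (x, y) := by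
    have h1 : ContDiff ℝ ∞ (fun z : V × Y => (gau D.A x z.1) z.2) :=
      (hg.comp contDiff_fst).clm_apply contDiff_snd
    exact ((contDiff_fst.prodMk h1).of_le (WithTop.coe_le_coe.2 le_top)).contDiffAt
  have hG' : MetAt (D.G η) (gmap D.A x (x, y)) := by
    rw [gmap_self]; exact metAt_G H hy hpos
  have hG : MetAt ((D.til x).G η) (x, y) :=
    metAt_G (til_good H) hy (fun a ha => by rw [til_fibL]; exact hpos a ha)
  have hs : Function.Surjective (fderiv ℝ (gmap D.A x) (x, y)) := by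
    intro w
    refine ⟨(w.1, w.2 + D.A x w.1 y), ?_⟩
    rw [gmap_fderiv]
    simp
  have := num_pullback hφ hG' hG hs (til_G H η y) u v
  rw [this, gmap_fderiv, gmap_fderiv, gmap_self]

end

end Pool.Agent.Helper20.MB.H17
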